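import Pool.Agent.W187.WQ.BotS

set_option autoImplicit false

open Complex MeasureTheory Set Filter
open scoped ComplexConjugate Topology
open Pool.Agent.W187.WP Pool.Agent.W187.WQ

namespace Pool.Agent.W918.WQ

theorem term_zero {h : ℝ → ℝ} (h2 : ∀ x, 2 ≤ |x| → h x = 0) {M v : ℝ} (hv : -M < v)
    {n : ℕ} (hn : n ∉ Finset.range ⌈2 * Real.exp M⌉₊) : h (((n : ℝ) + 1) * Real.exp v) = 0 := by
  apply h2
  have h3 : ⌈2 * Real.exp M⌉₊ ≤ n := by simpa using hn
  have h4 : 2 * Real.exp M ≤ n := (Nat.le_ceil _).trans (by exact_mod_cast h3)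
  have h5 : Real.exp (-M) ≤ Real.exp v := Real.exp_le_exp.2 hv.le
  have h6 : Real.exp M * Real.exp (-M) = 1 := by rw [← Real.exp_add]; simp
  have h7 : 0 < Real.exp v := Real.exp_pos v
  rw [abs_of_nonneg (by positivity)]
  have h8 : 0 < Real.exp M := Real.exp_pos M
  calc (2 : ℝ) = 2 * Real.exp M * Real.exp (-M) := by rw [mul_assoc, h6, mul_one]
    _ ≤ (n : ℝ) * Real.exp v := mul_le_mul h4 h5 (Real.exp_pos _).le (by positivity)
    _ ≤ ((n : ℝ) + 1) * Real.exp v := by gcongr; linarith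

theorem gq_cont {h : ℝ → ℝ} (hc : Continuous h) (h2 : ∀ x, 2 ≤ |x| → h x = 0) :
    Continuous (gq h) := by
  rw [continuous_iff_continuousAt]
  intro u
  set M : ℝ := -u + 1 with hM
  have h3 : ∀ᶠ v in 𝓝 u, -M < v := by
    apply lt_mem_nhds
    rw [hM]
    linarith
  have h4 : (fun v => Real.exp (v / 2) *
      ∑ n ∈ Finset.range ⌈2 * Real.exp M⌉₊, h (((n : ℝ) + 1) * Real.exp v)) =ᶠ[𝓝 u] gq h := by
    filter_upwards [h3] with v hv
    unfold gq
    rw [tsum_eq_sum (s := Finset.range ⌈2 * Real.exp M⌉₊) fun n hn => term_zero h2 hv hn]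
  refine ContinuousAt.congr ?_ h4
  fun_prop

theorem qq_cont {h : ℝ → ℝ} (hc : Continuous h) (h2 : ∀ x, 2 ≤ |x| → h x = 0) (ε : ℝ) :
    Continuous (qq ε h) := by
  have := gq_cont hc h2
  unfold qq
  fun_prop

theorem gq_zero {h : ℝ → ℝ} {ε : ℝ} (h1 : ∀ x, 1 + ε ≤ |x| → h x = 0) (hε : 0 < ε) {v : ℝ}
    (hv : ε ≤ v) : gq h v = 0 := by
  unfold gq
  have h3 : ∀ n : ℕ, h (((n : ℝ) + 1) * Real.exp v) = 0 := by
    intro n
    apply h1
    have h4 := Real.add_one_le_exp v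
    rw [abs_of_nonneg (by positivity)]
    have h5 : (0 : ℝ) ≤ n := Nat.cast_nonneg n
    nlinarith
  simp only [h3, tsum_zero, mul_zero]

theorem sum_sq : ∑' n : ℕ, (1 / (2 * Real.pi * ((n : ℝ) + 1)) ^ 2) ≤ 1 ∧
    Summable (fun n : ℕ => 1 / (2 * Real.pi * ((n : ℝ) + 1)) ^ 2) := by
  have h0 : ∀ n : ℕ, 1 / (2 * Real.pi * ((n : ℝ) + 1)) ^ 2 =
      1 / (2 * Real.pi) ^ 2 * (1 / ((n : ℝ) + 1) ^ 2) := by
    intro n
    rw [mul_pow, one_div_mul_one_div]
  have h1 : HasSum (fun n : ℕ => 1 / ((n : ℝ) + 1) ^ 2) (Real.pi ^ 2 / 6) := by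
    have h2 := (hasSum_nat_add_iff' (f := fun n : ℕ => 1 / (n : ℝ) ^ 2) 1).2 hasSum_zeta_two
    simpa using h2
  have h3 := h1.mul_left (1 / (2 * Real.pi) ^ 2)
  simp only [h0]
  refine ⟨?_, h3.summable⟩
  rw [h3.tsum_eq]
  have hpi : Real.pi ≠ 0 := Real.pi_ne_zero
  have : 1 / (2 * Real.pi) ^ 2 * (Real.pi ^ 2 / 6) = 1 / 24 := by
    field_simp
    norm_num
  rw [this]
  norm_num

/-- the remainder -/
noncomputable def rr (h : ℝ → ℝ) (v : ℝ) : ℝ :=
  Real.exp (-v / 2) * ∑' n : ℕ, ∫ y, h y * Real.cos (2 * Real.pi * ((n : ℝ) + 1) / Real.exp v * y)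

theorem gq_eq (hpoi : S_POI) {h : ℝ → ℝ} (hc : ContDiff ℝ 2 h) (hcs : HasCompactSupport h)
    (hev : ∀ x, h (-x) = h x) (v : ℝ) :
    gq h v = rr h v + Real.exp (-v / 2) * ((∫ y, h y) / 2) - Real.exp (v / 2) * (h 0 / 2) := by
  have h1 := (hpoi h hc hcs hev (Real.exp v) (Real.exp_pos v)).2
  unfold gq rr
  rw [h1]
  have h2 : Real.exp (v / 2) * (1 / Real.exp v) = Real.exp (-v / 2) := by
    rw [one_div, ← Real.exp_neg, ← Real.exp_add]
    congr 1
    ring
  have h3 : Real.exp (v / 2) * (1 / (2 * Real.exp v)) = Real.exp (-v / 2) / 2 := by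
    rw [← h2]
    field_simp
  set I := ∫ y, h y
  set S := ∑' n : ℕ, ∫ y, h y * Real.cos (2 * Real.pi * ((n : ℝ) + 1) / Real.exp v * y)
  calc Real.exp (v / 2) * (1 / Real.exp v * S + 1 / (2 * Real.exp v) * I - h 0 / 2)
      = (Real.exp (v / 2) * (1 / Real.exp v)) * S +
        (Real.exp (v / 2) * (1 / (2 * Real.exp v))) * I - Real.exp (v / 2) * (h 0 / 2) := by ring
    _ = _ := by rw [h2, h3]; ring

theorem rr_bound {h : ℝ → ℝ} {C c : ℝ} (hC : 0 < C) (hc : 1 ≤ c)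
    (hH : ∀ ω : ℝ, c ≤ |ω| → |∫ x, h x * Real.cos (ω * x)| ≤ C / ω ^ 2) {v : ℝ}
    (hv : v ≤ Real.log (2 * Real.pi / c)) : |rr h v| ≤ C * Real.exp (3 / 2 * v) := by
  have hpi := Real.pi_pos
  have hc0 : 0 < c := by linarith
  have hev : Real.exp v ≤ 2 * Real.pi / c := by
    rw [← Real.exp_log (by positivity : 0 < 2 * Real.pi / c)]
    exact Real.exp_le_exp.2 hv
  have hpos := Real.exp_pos v
  have h1 : ∀ n : ℕ, |∫ y, h y * Real.cos (2 * Real.pi * ((n : ℝ) + 1) / Real.exp v * y)| ≤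
      C * Real.exp v ^ 2 * (1 / (2 * Real.pi * ((n : ℝ) + 1)) ^ 2) := by
    intro n
    have h2 := hH (2 * Real.pi * ((n : ℝ) + 1) / Real.exp v) (by
      rw [abs_of_nonneg (by positivity), le_div_iff₀ hpos]
      rw [le_div_iff₀ hc0] at hev
      have : (0 : ℝ) ≤ n := Nat.cast_nonneg n
      nlinarith)
    refine h2.trans (le_of_eq ?_)
    field_simp
  obtain ⟨hs1, hs2⟩ := sum_sq
  have hs3 := hs2.mul_left (C * Real.exp v ^ 2)
  have h2 : |∑' n : ℕ, ∫ y, h y * Real.cos (2 * Real.pi * ((n : ℝ) + 1) / Real.exp v * y)| ≤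
      C * Real.exp v ^ 2 := by
    have h3 : ‖∑' n : ℕ, ∫ y, h y * Real.cos (2 * Real.pi * ((n : ℝ) + 1) / Real.exp v * y)‖ ≤
        ∑' n : ℕ, C * Real.exp v ^ 2 * (1 / (2 * Real.pi * ((n : ℝ) + 1)) ^ 2) :=
      tsum_of_norm_bounded hs3.hasSum h1
    rw [Real.norm_eq_abs, tsum_mul_left] at h3
    refine h3.trans ?_
    calc C * Real.exp v ^ 2 * ∑' n : ℕ, (1 / (2 * Real.pi * ((n : ℝ) + 1)) ^ 2)
        ≤ C * Real.exp v ^ 2 * 1 := mul_le_mul_of_nonneg_left hs1 (by positivity)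
      _ = _ := mul_one _
  unfold rr
  rw [abs_mul, abs_of_pos (Real.exp_pos _)]
  calc Real.exp (-v / 2) *
        |∑' n : ℕ, ∫ y, h y * Real.cos (2 * Real.pi * ((n : ℝ) + 1) / Real.exp v * y)|
      ≤ Real.exp (-v / 2) * (C * Real.exp v ^ 2) :=
        mul_le_mul_of_nonneg_left h2 (Real.exp_pos _).le
    _ = C * (Real.exp (-v / 2) * Real.exp v ^ 2) := by ring
    _ = C * Real.exp (3 / 2 * v) := by
        rw [← Real.exp_nat_mul, ← Real.exp_add]
        congr 2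
        push_cast
        ring

theorem qx (hwin : S_WIN) (hpoi : S_POI) (hmel : S_MEL) : S_QX := by
  intro ε hε hε2
  obtain ⟨C0, hC0, hwin'⟩ := hwin ε hε (by linarith)
  have hch : 0 < Real.cosh (ε / 2) := Real.cosh_pos _
  refine ⟨C0 * (2 + 2 * Real.cosh (ε / 2)) * Real.exp (3 / 2 * ε), by positivity, ?_⟩
  intro c hc
  obtain ⟨h, hcd, hev, hsupp, hint, hH⟩ := hwin' c hc
  have h2 : ∀ x, 2 ≤ |x| → h x = 0 := fun x hx => hsupp x (by linarith)
  have hcs : HasCompactSupport h := by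
    refine HasCompactSupport.intro (isCompact_Icc (a := (-2 : ℝ)) (b := 2)) ?_
    intro x hx
    apply h2
    by_contra hlt
    rw [not_le, abs_lt] at hlt
    exact hx ⟨hlt.1.le, hlt.2.le⟩
  have hqc : Continuous (qq ε h) := qq_cont hcd.continuous h2 ε
  -- the bound
  have hbd : ∀ u, u ≤ Real.log (2 * Real.pi / c) - ε →
      |qq ε h u| ≤ C0 * (2 + 2 * Real.cosh (ε / 2)) * Real.exp (3 / 2 * ε) *
        Real.exp (3 / 2 * u) := by
    intro u hu
    have e1 := gq_eq hpoi hcd hcs hev (u + ε)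
    have e2 := gq_eq hpoi hcd hcs hev (u - ε)
    have e3 := gq_eq hpoi hcd hcs hev u
    have k1 : Real.exp (-(u + ε) / 2) = Real.exp (-u / 2) * Real.exp (-(ε / 2)) := by
      rw [← Real.exp_add]; congr 1; ring
    have k2 : Real.exp (-(u - ε) / 2) = Real.exp (-u / 2) * Real.exp (ε / 2) := by
      rw [← Real.exp_add]; congr 1; ring
    have k3 : Real.exp ((u + ε) / 2) = Real.exp (u / 2) * Real.exp (ε / 2) := by
      rw [← Real.exp_add]; congr 1; ring
    have k4 : Real.exp ((u - ε) / 2) = Real.exp (u / 2) * Real.exp (-(ε / 2)) := by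
      rw [← Real.exp_add]; congr 1; ring
    rw [k1, k3] at e1
    rw [k2, k4] at e2
    have hq : qq ε h u = rr h (u + ε) + rr h (u - ε) - 2 * Real.cosh (ε / 2) * rr h u := by
      unfold qq
      rw [e1, e2, e3, Real.cosh_eq]
      ring
    have b1 := rr_bound hC0 hc hH (v := u + ε) (by linarith)
    have b2 := rr_bound hC0 hc hH (v := u - ε) (by linarith)
    have b3 := rr_bound hC0 hc hH (v := u) (by linarith)
    have m1 : Real.exp (3 / 2 * (u + ε)) = Real.exp (3 / 2 * ε) * Real.exp (3 / 2 * u) := by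
      rw [← Real.exp_add]; congr 1; ring
    have m2 : Real.exp (3 / 2 * (u - ε)) ≤ Real.exp (3 / 2 * ε) * Real.exp (3 / 2 * u) := by
      rw [← m1]
      exact Real.exp_le_exp.2 (by linarith)
    have m3 : Real.exp (3 / 2 * u) ≤ Real.exp (3 / 2 * ε) * Real.exp (3 / 2 * u) := by
      rw [← m1]
      exact Real.exp_le_exp.2 (by linarith)
    rw [m1] at b1
    set E := Real.exp (3 / 2 * ε) * Real.exp (3 / 2 * u) with hE
    have b2' : |rr h (u - ε)| ≤ C0 * E := b2.trans (by gcongr)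
    have b3' : |rr h u| ≤ C0 * E := b3.trans (by gcongr)
    rw [hq]
    calc |rr h (u + ε) + rr h (u - ε) - 2 * Real.cosh (ε / 2) * rr h u|
        ≤ |rr h (u + ε) + rr h (u - ε)| + |2 * Real.cosh (ε / 2) * rr h u| := abs_sub _ _
      _ ≤ (|rr h (u + ε)| + |rr h (u - ε)|) + 2 * Real.cosh (ε / 2) * |rr h u| := by
          gcongr
          · exact abs_add_le _ _
          · rw [abs_mul, abs_of_pos (by positivity)]
      _ ≤ (C0 * E + C0 * E) + 2 * Real.cosh (ε / 2) * (C0 * E) := by gcongr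
      _ = C0 * (2 + 2 * Real.cosh (ε / 2)) * Real.exp (3 / 2 * ε) * Real.exp (3 / 2 * u) := by
          rw [hE]; ring
  have hA : ∃ A : ℝ, ∀ u ≤ 0, |qq ε h u| ≤ A * Real.exp (3 / 2 * u) := by
    set U0 := Real.log (2 * Real.pi / c) - ε with hU0
    set C1 := C0 * (2 + 2 * Real.cosh (ε / 2)) * Real.exp (3 / 2 * ε) with hC1
    have hC1' : 0 < C1 := by positivity
    obtain ⟨B, hB⟩ := (isCompact_Icc (a := U0) (b := 0)).exists_bound_of_continuousOn
      hqc.continuousOn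
    refine ⟨C1 + |B| * Real.exp (-(3 / 2 * U0)), fun u hu => ?_⟩
    rcases le_total u U0 with h3 | h3
    · refine (hbd u h3).trans ?_
      have : 0 ≤ |B| * Real.exp (-(3 / 2 * U0)) := by positivity
      gcongr
      linarith
    · have h4 := hB u ⟨h3, hu⟩
      rw [Real.norm_eq_abs] at h4
      have h5 : 1 ≤ Real.exp (-(3 / 2 * U0)) * Real.exp (3 / 2 * u) := by
        rw [← Real.exp_add]
        exact Real.one_le_exp (by linarith)
      have h6 : |B| ≤ |B| * (Real.exp (-(3 / 2 * U0)) * Real.exp (3 / 2 * u)) :=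
        le_mul_of_one_le_right (abs_nonneg _) h5
      have h7 : 0 ≤ C1 * Real.exp (3 / 2 * u) := by positivity
      calc |qq ε h u| ≤ |B| := h4.trans (le_abs_self B)
        _ ≤ |B| * (Real.exp (-(3 / 2 * U0)) * Real.exp (3 / 2 * u)) := h6
        _ ≤ C1 * Real.exp (3 / 2 * u) +
            |B| * (Real.exp (-(3 / 2 * U0)) * Real.exp (3 / 2 * u)) := by linarith
        _ = _ := by ring
  obtain ⟨hm1, hm2⟩ := hmel ε h hε (by linarith) hcd hev h2 hA
  refine ⟨qq ε h, hqc, ?_, hbd, hm1, ?_⟩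
  · intro u hu
    unfold qq
    rw [gq_zero hsupp hε (by linarith : ε ≤ u + ε), gq_zero hsupp hε (by linarith : ε ≤ u - ε),
      gq_zero hsupp hε (by linarith : ε ≤ u)]
    ring
  · rw [hm2, hint]

end Pool.Agent.W918.WQ
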